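import Pool.Agent.V11319.MCMulti

/-! Row guesses for the circles of squared radius `49997` (used by the counting programs of
`Pool.Agent.V11319`). -/

namespace Pool.Agent.V11275.Rho

open Pool.Agent.V11319.MC

def lu : List ℕ :=
  [224, 224, 224, 224, 224, 224, 223, 223, 223, 223, 223, 223, 223, 223, 223, 223, 223, 223, 223,
  223, 223, 223, 222, 222, 222, 222, 222, 222, 222, 222, 221, 221, 221, 221, 221, 221, 221, 220,
  220, 220, 220, 220, 219, 219, 219, 219, 219, 218, 218, 218, 218, 217, 217, 217, 217, 216, 216,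
  216, 216, 215, 215, 215, 215, 214, 214, 214, 213, 213, 213, 212, 212, 212, 211, 211, 211, 210,
  210, 210, 209, 209, 208, 208, 208, 207, 207, 206, 206, 206, 205, 205, 204, 204, 203, 203, 202,
  202, 201, 201, 200, 200, 199, 199, 198, 198, 197, 197, 196, 196, 195, 195, 194, 194, 193, 192,
  192, 191, 191, 190, 189, 189, 188, 187, 187, 186, 185, 185, 184, 183, 183, 182, 181, 180, 180,
  179, 178, 177, 177, 176, 175, 174, 174, 173, 172, 171, 170, 169, 168, 168, 167, 166, 165, 164,
  163, 162, 161, 160, 159, 158, 157, 156, 155, 154, 153, 152, 151, 150, 149, 148, 146, 145, 144,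
  143, 142, 140, 139, 138, 137, 135, 134, 133, 131, 130, 128, 127, 126, 124, 123, 121, 119, 118,
  116, 115, 113, 111, 109, 108, 106, 104, 102, 100, 98, 96, 94, 92, 89, 87, 85, 82, 79, 77, 74,
  71, 68, 65, 61, 58, 54, 50, 45, 40, 34, 27, 16]

def ld : List ℕ :=
  [224, 224, 224, 224, 224, 224, 224, 223, 223, 223, 223, 223, 223, 223, 223, 223, 223, 223, 223,
  223, 223, 223, 223, 222, 222, 222, 222, 222, 222, 222, 222, 221, 221, 221, 221, 221, 221, 221,
  220, 220, 220, 220, 220, 219, 219, 219, 219, 219, 218, 218, 218, 218, 217, 217, 217, 217, 216,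
  216, 216, 216, 215, 215, 215, 215, 214, 214, 214, 213, 213, 213, 212, 212, 212, 211, 211, 211,
  210, 210, 210, 209, 209, 208, 208, 208, 207, 207, 206, 206, 206, 205, 205, 204, 204, 203, 203,
  202, 202, 201, 201, 200, 200, 199, 199, 198, 198, 197, 197, 196, 196, 195, 195, 194, 194, 193,
  192, 192, 191, 191, 190, 189, 189, 188, 187, 187, 186, 185, 185, 184, 183, 183, 182, 181, 180,
  180, 179, 178, 177, 177, 176, 175, 174, 174, 173, 172, 171, 170, 169, 168, 168, 167, 166, 165,
  164, 163, 162, 161, 160, 159, 158, 157, 156, 155, 154, 153, 152, 151, 150, 149, 148, 146, 145,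
  144, 143, 142, 140, 139, 138, 137, 135, 134, 133, 131, 130, 128, 127, 126, 124, 123, 121, 119,
  118, 116, 115, 113, 111, 109, 108, 106, 104, 102, 100, 98, 96, 94, 92, 89, 87, 85, 82, 79, 77,
  74, 71, 68, 65, 61, 58, 54, 50, 45, 40, 34, 27, 16]

def LA : List (ℤ × ℤ) :=
  [(-221, -34), (-221, 34), (-211, -74), (-211, 74), (-179, -134), (-179, 134), (-134, -179),
  (-134, 179), (-74, -211), (-74, 211), (-34, -221), (-34, 221), (34, -221), (34, 221), (74,
  -211), (74, 211), (134, -179), (134, 179), (179, -134), (179, 134), (211, -74), (211, 74), (221,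
  -34), (221, 34)]

def LB : List (ℤ × ℤ) :=
  [(-156, 160), (-124, 186), (-105, -197), (-67, -213), (215, 63), (224, 0)]

end Pool.Agent.V11275.Rho
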