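import Pool.Agent.V11275.Rho.Data

/-! Quadtree certificates, part 0. -/

namespace Pool.Agent.V11275.Rho

open Pool.Agent.V11319.MC

def t0 : QT :=
  (.node (.node (.node (.node (.node .spec .out .leaf .leaf) .out .leaf .leaf) .out (.node .leaf
  .leaf .leaf .leaf) (.node .leaf .out .leaf .leaf)) .out (.node (.node .leaf .leaf .leaf .leaf)
  (.node .leaf (.node .leaf .leaf .leaf .leaf) .leaf .leaf) (.node .leaf .leaf .leaf .leaf)
  .leaf) (.node (.node (.node .leaf .out .leaf .leaf) .out .leaf .leaf) .out .leaf .leaf)) .out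
  (.node (.node .leaf .leaf .leaf .leaf) .leaf .leaf .leaf) (.node .leaf .out .leaf .leaf))

theorem h0 : chkTree2 lu ld 1249925 5 0 0 256 2 1 512 157050 t0 8 0 0 = true := by
  decide +kernel

def t1 : QT :=
  .out

theorem h1 : chkTree2 lu ld 1249925 5 0 0 256 2 1 512 157050 t1 8 0 1 = true := by
  decide +kernel

def t2 : QT :=
  (.node (.node .leaf (.node .leaf .leaf .leaf .leaf) (.node .leaf .leaf .leaf .leaf) (.node
  .leaf .leaf .leaf .leaf)) (.node .leaf (.node .leaf .leaf .leaf .leaf) (.node .leaf .leaf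
  .leaf .leaf) (.node .leaf .leaf .leaf .leaf)) (.node (.node .leaf .leaf .leaf .leaf) (.node
  .leaf .leaf .leaf .leaf) (.node .leaf .leaf .leaf .leaf) (.node .leaf .leaf .leaf .leaf))
  (.node (.node .leaf .leaf .leaf .leaf) (.node .leaf .leaf .leaf .leaf) (.node .leaf .leaf
  .leaf .leaf) (.node .leaf .leaf .leaf .leaf)))

theorem h2 : chkTree2 lu ld 1249925 5 0 0 256 2 1 512 157050 t2 8 1 0 = true := by
  decide +kernel

def t3 : QT :=
  (.node (.node (.node .leaf .out .leaf .leaf) .out .leaf .leaf) .out (.node .leaf .leaf .leaf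
  .leaf) (.node (.node .leaf .out .leaf .leaf) .out (.node .leaf .leaf .leaf .leaf) .leaf))

theorem h3 : chkTree2 lu ld 1249925 5 0 0 256 2 1 512 157050 t3 8 1 1 = true := by
  decide +kernel

def t4 : QT :=
  .out

theorem h4 : chkTree2 lu ld 1249925 5 0 0 256 2 1 512 157050 t4 4 0 1 = true := by
  decide +kernel

end Pool.Agent.V11275.Rho
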