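import Pool.Agent.V11275.Rho.Data

/-! Quadtree certificates, part 1. -/

namespace Pool.Agent.V11275.Rho

open Pool.Agent.V11319.MC

def t5 : QT :=
  (.node (.node (.node .leaf .leaf .leaf .leaf) (.node .leaf .leaf .leaf .leaf) (.node .leaf
  .leaf .leaf .leaf) (.node .leaf .leaf .leaf .leaf)) (.node (.node .leaf .leaf .leaf .leaf)
  (.node .leaf .leaf .leaf .leaf) (.node .leaf .leaf .leaf .leaf) (.node .leaf .leaf .leaf
  .leaf)) (.node .leaf (.node .leaf .leaf .leaf .leaf) .leaf (.node .leaf .leaf .leaf .leaf))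
  (.node (.node .leaf .leaf .leaf .leaf) (.node .leaf .leaf .leaf .leaf) (.node .leaf .leaf
  .leaf .leaf) (.node .leaf .leaf .leaf .leaf)))

theorem h5 : chkTree2 lu ld 1249925 5 0 0 256 2 1 512 157050 t5 8 2 0 = true := by
  decide +kernel

def t6 : QT :=
  (.node (.node .leaf .leaf .leaf .leaf) (.node .leaf .leaf .leaf .leaf) (.node .leaf .leaf
  .leaf .leaf) (.node .leaf .leaf .leaf .leaf))

theorem h6 : chkTree2 lu ld 1249925 5 0 0 256 2 1 512 157050 t6 16 4 2 = true := by
  decide +kernel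

def t7 : QT :=
  (.node .leaf (.node .leaf .leaf .leaf .leaf) (.node .leaf .leaf .leaf .leaf) (.node .leaf
  .leaf .leaf .leaf))

theorem h7 : chkTree2 lu ld 1249925 5 0 0 256 2 1 512 157050 t7 16 4 3 = true := by
  decide +kernel

def t8 : QT :=
  (.node .leaf .leaf .leaf (.node .leaf .leaf .leaf .leaf))

theorem h8 : chkTree2 lu ld 1249925 5 0 0 256 2 1 512 157050 t8 32 10 4 = true := by
  decide +kernel

def t9 : QT :=
  (.node .leaf (.node .leaf .leaf .leaf .leaf) (.node .leaf .leaf .leaf .leaf) (.node .leaf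
  .leaf .leaf (.node .leaf .leaf .leaf .leaf)))

theorem h9 : chkTree2 lu ld 1249925 5 0 0 256 2 1 512 157050 t9 32 10 5 = true := by
  decide +kernel

def t10 : QT :=
  (.node .leaf (.node .leaf .leaf .leaf .leaf) (.node .leaf .leaf .leaf .leaf) (.node .leaf
  (.node .leaf .leaf .leaf .leaf) .leaf (.node .leaf .leaf .leaf .leaf)))

theorem h10 : chkTree2 lu ld 1249925 5 0 0 256 2 1 512 157050 t10 32 11 4 = true := by
  decide +kernel

end Pool.Agent.V11275.Rho
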