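import Pool.Agent.V11275.Rho.Data

/-! Quadtree certificates, part 2. -/

namespace Pool.Agent.V11275.Rho

open Pool.Agent.V11319.MC

def t11 : QT :=
  (.node (.node (.node .leaf .leaf .leaf .leaf) .leaf .leaf (.node .leaf .leaf .leaf .leaf))
  (.node .leaf (.node .leaf .leaf .leaf .leaf) (.node .leaf .leaf .leaf .leaf) .leaf) (.node
  (.node .leaf .leaf .leaf .leaf) (.node .leaf .leaf .leaf .leaf) (.node .leaf .leaf .leaf
  .leaf) (.node .leaf .leaf .leaf .leaf)) (.node .leaf .leaf (.node .leaf .leaf .leaf .leaf)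
  .leaf))

theorem h11 : chkTree2 lu ld 1249925 5 0 0 256 2 1 512 157050 t11 32 11 5 = true := by
  decide +kernel

def t12 : QT :=
  (.node (.node .leaf .leaf (.node .leaf .leaf .leaf .leaf) .leaf) (.node .leaf .leaf .leaf
  (.node .leaf .leaf .leaf .leaf)) (.node (.node .leaf .leaf .leaf .leaf) (.node .leaf .leaf
  .leaf .leaf) (.node .leaf .leaf .leaf .leaf) (.node .leaf .leaf .leaf .leaf)) (.node .leaf
  .leaf .leaf .leaf))

theorem h12 : chkTree2 lu ld 1249925 5 0 0 256 2 1 512 157050 t12 16 5 3 = true := by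
  decide +kernel

end Pool.Agent.V11275.Rho
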