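import Pool.Agent.V11275.Rho.Data

/-! Quadtree certificates, part 3. -/

namespace Pool.Agent.V11275.Rho

open Pool.Agent.V11319.MC

def t13 : QT :=
  (.node (.node (.node .leaf .leaf .leaf .leaf) (.node .leaf .leaf .leaf .leaf) (.node .leaf
  .leaf .leaf .leaf) (.node .leaf .leaf .leaf .leaf)) (.node (.node .leaf .leaf .leaf .leaf)
  (.node .leaf .leaf .leaf .leaf) (.node .leaf .leaf .leaf .leaf) (.node .leaf .leaf .leaf
  .leaf)) (.node (.node .leaf .leaf .leaf .leaf) .leaf (.node .leaf .leaf .leaf .leaf) (.node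
  .leaf .leaf .leaf .leaf)) (.node (.node .leaf (.node .leaf .leaf .leaf .leaf) .leaf (.node
  .leaf .leaf .leaf .leaf)) (.node .leaf .leaf .leaf .leaf) (.node .leaf .leaf .leaf .leaf)
  (.node .leaf .leaf .leaf .leaf)))

theorem h13 : chkTree2 lu ld 1249925 5 0 0 256 2 1 512 157050 t13 8 3 0 = true := by
  decide +kernel

end Pool.Agent.V11275.Rho
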