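import Pool.Agent.V11275.Rho.Data

/-! Quadtree certificates, part 4. -/

namespace Pool.Agent.V11275.Rho

open Pool.Agent.V11319.MC

def t14 : QT :=
  (.node (.node .leaf (.node .leaf .leaf .leaf .leaf) (.node .leaf .leaf .leaf .leaf) (.node
  .leaf .leaf .leaf .leaf)) (.node (.node (.node .leaf .leaf .leaf .leaf) (.node .leaf .leaf
  .leaf .leaf) .leaf (.node .leaf (.node .leaf .leaf .leaf .leaf) .leaf .leaf)) (.node (.node
  .leaf .leaf .leaf .leaf) .leaf (.node .leaf .leaf .leaf .leaf) .leaf) (.node .leaf .leaf .leaf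
  .leaf) (.node (.node .leaf .leaf .leaf .leaf) (.node .leaf .leaf .leaf .leaf) .leaf .leaf))
  (.node .leaf (.node .leaf .leaf .leaf .leaf) .leaf .leaf) (.node (.node .leaf .leaf .leaf
  .leaf) (.node .leaf .leaf .leaf .leaf) .leaf (.node .leaf .leaf .leaf .leaf)))

theorem h14 : chkTree2 lu ld 1249925 5 0 0 256 2 1 512 157050 t14 16 6 2 = true := by
  decide +kernel

def t15 : QT :=
  (.node (.node .leaf .leaf .leaf .leaf) (.node .leaf .leaf .leaf .leaf) (.node (.node .leaf
  .leaf (.node .leaf .leaf .leaf .leaf) .leaf) (.node .leaf .leaf .leaf .leaf) (.node .leaf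
  .leaf .leaf .leaf) (.node .leaf (.node .spec .leaf .leaf .leaf) .leaf .leaf)) (.node (.node
  .leaf .leaf .leaf .leaf) .leaf (.node .leaf .leaf .leaf .leaf) .leaf))

theorem h15 : chkTree2 lu ld 1249925 5 0 0 256 2 1 512 157050 t15 32 12 6 = true := by
  decide +kernel

end Pool.Agent.V11275.Rho
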