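import Pool.Agent.V11275.Rho.Data

/-! Quadtree certificates, part 5. -/

namespace Pool.Agent.V11275.Rho

open Pool.Agent.V11319.MC

def t16 : QT :=
  (.node (.node .leaf .leaf .leaf .leaf) (.node .leaf .leaf (.node .leaf .leaf .leaf .leaf)
  .leaf) (.node .leaf .leaf .leaf .leaf) (.node .leaf .leaf .leaf .leaf))

theorem h16 : chkTree2 lu ld 1249925 5 0 0 256 2 1 512 157050 t16 32 12 7 = true := by
  decide +kernel

def t17 : QT :=
  (.node (.node .leaf (.node .leaf .leaf .leaf .leaf) .leaf (.node .leaf .leaf .leaf .leaf))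
  (.node (.node .leaf .leaf .leaf .leaf) .leaf .leaf .leaf) (.node .leaf (.node .leaf .leaf
  .leaf .leaf) .leaf .leaf) (.node .leaf .leaf .leaf .leaf))

theorem h17 : chkTree2 lu ld 1249925 5 0 0 256 2 1 512 157050 t17 32 13 6 = true := by
  decide +kernel

def t18 : QT :=
  (.node (.node .leaf .leaf .leaf .leaf) (.node .leaf .leaf .leaf .leaf) (.node .leaf .leaf
  .leaf .leaf) .leaf)

theorem h18 : chkTree2 lu ld 1249925 5 0 0 256 2 1 512 157050 t18 32 13 7 = true := by
  decide +kernel

def t19 : QT :=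
  (.node (.node .leaf .leaf (.node .leaf .leaf .leaf .leaf) .leaf) (.node (.node .leaf .leaf
  .leaf .leaf) .leaf .leaf .leaf) (.node (.node .leaf .leaf .leaf .leaf) .leaf (.node .leaf
  .leaf (.node .leaf .leaf .leaf .leaf) .leaf) (.node (.node .leaf .leaf .leaf .leaf) .leaf
  (.node .leaf .leaf (.node .leaf .leaf .leaf .leaf) .leaf) .leaf)) (.node .leaf .leaf (.node
  .leaf .leaf .leaf .leaf) (.node .leaf .leaf .leaf .leaf)))

theorem h19 : chkTree2 lu ld 1249925 5 0 0 256 2 1 512 157050 t19 16 7 2 = true := by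
  decide +kernel

end Pool.Agent.V11275.Rho
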