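import Pool.Agent.V11275.Rho.Data

/-! Quadtree certificates, part 6. -/

namespace Pool.Agent.V11275.Rho

open Pool.Agent.V11319.MC

def t20 : QT :=
  (.node (.node (.node .leaf .leaf .leaf .leaf) (.node .leaf .leaf .leaf .leaf) .leaf .leaf)
  (.node .leaf (.node .leaf .leaf .leaf .leaf) (.node .leaf .leaf .leaf .leaf) (.node .leaf
  .leaf .leaf .leaf)) (.node .leaf .leaf .leaf .leaf) (.node (.node .leaf .leaf .leaf .leaf)
  (.node .leaf .leaf .leaf .leaf) .leaf .leaf))

theorem h20 : chkTree2 lu ld 1249925 5 0 0 256 2 1 512 157050 t20 16 7 3 = true := by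
  decide +kernel

def t21 : QT :=
  (.node (.node .leaf .out .leaf .leaf) .out (.node .leaf .leaf .leaf .leaf) (.node .leaf .out
  .leaf .leaf))

theorem h21 : chkTree2 lu ld 1249925 5 0 0 256 2 1 512 157050 t21 16 4 4 = true := by
  decide +kernel

def t22 : QT :=
  .out

theorem h22 : chkTree2 lu ld 1249925 5 0 0 256 2 1 512 157050 t22 16 4 5 = true := by
  decide +kernel

def t23 : QT :=
  (.node (.node .leaf .leaf .leaf .leaf) (.node .leaf .leaf .leaf (.node .leaf .leaf .leaf
  .leaf)) (.node .leaf .leaf .leaf .leaf) (.node .leaf (.node .leaf (.node .leaf (.node .leaf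
  .leaf .leaf .leaf) .leaf (.node .leaf .leaf .leaf .leaf)) .leaf (.node .leaf .leaf .leaf
  .leaf)) .leaf (.node .leaf (.node .leaf .leaf .leaf .leaf) .leaf .leaf)))

theorem h23 : chkTree2 lu ld 1249925 5 0 0 256 2 1 512 157050 t23 16 5 4 = true := by
  decide +kernel

end Pool.Agent.V11275.Rho
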