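import Pool.Agent.V11275.Rho.Data

/-! Quadtree certificates, part 7. -/

namespace Pool.Agent.V11275.Rho

open Pool.Agent.V11319.MC

def t24 : QT :=
  (.node (.node (.node .leaf .out .leaf .leaf) .out (.node .leaf .leaf .leaf .leaf) (.node .leaf
  .out .leaf .leaf)) .out (.node (.node (.node .leaf .leaf (.node .leaf .leaf (.node .leaf .leaf
  .leaf .leaf) .leaf) (.node .leaf .leaf .leaf .leaf)) (.node .leaf .leaf (.node .leaf .leaf
  .leaf .leaf) .leaf) (.node (.node (.node .leaf .leaf .leaf .leaf) (.node .leaf .leaf .leaf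
  .leaf) (.node .leaf .leaf .leaf .leaf) .leaf) .leaf .leaf .leaf) (.node .leaf .leaf .leaf
  .leaf)) (.node .leaf .leaf .leaf .leaf) (.node .leaf .leaf .leaf .leaf) .leaf) (.node .leaf
  .out .leaf .leaf))

theorem h24 : chkTree2 lu ld 1249925 5 0 0 256 2 1 512 157050 t24 16 5 5 = true := by
  decide +kernel

def t25 : QT :=
  .out

theorem h25 : chkTree2 lu ld 1249925 5 0 0 256 2 1 512 157050 t25 8 2 3 = true := by
  decide +kernel

def t26 : QT :=
  (.node (.node (.node .leaf .leaf .leaf .leaf) .leaf (.node .leaf .leaf .leaf .leaf) (.node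
  .leaf .leaf .leaf .leaf)) (.node (.node .leaf .leaf .leaf .leaf) (.node .leaf .leaf .leaf
  .leaf) (.node .leaf .leaf .leaf .leaf) (.node .leaf .leaf .leaf .leaf)) (.node .leaf .leaf
  .leaf .leaf) (.node .leaf (.node .leaf .leaf .leaf .leaf) .leaf .leaf))

theorem h26 : chkTree2 lu ld 1249925 5 0 0 256 2 1 512 157050 t26 16 6 4 = true := by
  decide +kernel

def t27 : QT :=
  (.node (.node (.node .leaf .leaf .leaf .leaf) .leaf (.node .leaf .leaf .leaf .leaf) .leaf)
  (.node .leaf .leaf .leaf .leaf) (.node .leaf .leaf .leaf .leaf) (.node .leaf .leaf .leaf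
  .leaf))

theorem h27 : chkTree2 lu ld 1249925 5 0 0 256 2 1 512 157050 t27 16 6 5 = true := by
  decide +kernel

end Pool.Agent.V11275.Rho
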