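import Pool.Agent.V11275.Rho.Data

/-! Quadtree certificates, part 8. -/

namespace Pool.Agent.V11275.Rho

open Pool.Agent.V11319.MC

def t28 : QT :=
  (.node (.node (.node .leaf .leaf .leaf .leaf) (.node .leaf .leaf .leaf .leaf) .leaf .leaf)
  (.node .leaf .leaf .leaf .leaf) (.node (.node .leaf .leaf .leaf .leaf) (.node .leaf .leaf
  .leaf .leaf) (.node .leaf .leaf .leaf .leaf) (.node .leaf .leaf .leaf .leaf)) (.node .leaf
  .leaf .leaf .leaf))

theorem h28 : chkTree2 lu ld 1249925 5 0 0 256 2 1 512 157050 t28 16 7 4 = true := by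
  decide +kernel

def t29 : QT :=
  (.node (.node .leaf .leaf .leaf .leaf) (.node .leaf .leaf .leaf .leaf) (.node .leaf .leaf
  .leaf .leaf) (.node .leaf .leaf .leaf .leaf))

theorem h29 : chkTree2 lu ld 1249925 5 0 0 256 2 1 512 157050 t29 16 7 5 = true := by
  decide +kernel

def t30 : QT :=
  (.node (.node (.node .leaf .out .leaf .leaf) .out (.node .leaf .leaf .leaf .leaf) (.node .leaf
  .out .leaf .leaf)) .out (.node (.node .leaf .leaf .leaf .leaf) (.node .leaf .leaf .leaf .leaf)
  (.node .leaf .leaf .leaf .leaf) .leaf) (.node .leaf .out .leaf (.node .leaf .out .leaf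
  .leaf)))

theorem h30 : chkTree2 lu ld 1249925 5 0 0 256 2 1 512 157050 t30 8 3 3 = true := by
  decide +kernel

end Pool.Agent.V11275.Rho
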