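import Pool.Agent.V11275.Rho.Main
import Pool.Agent.V11275.Rho.Data
import Pool.Agent.V11275.Rho.Tree0
import Pool.Agent.V11275.Rho.Tree1
import Pool.Agent.V11275.Rho.Tree2
import Pool.Agent.V11275.Rho.Tree3
import Pool.Agent.V11275.Rho.Tree4
import Pool.Agent.V11275.Rho.Tree5
import Pool.Agent.V11275.Rho.Tree6
import Pool.Agent.V11275.Rho.Tree7
import Pool.Agent.V11275.Rho.Tree8

/-! Every closed disc of squared radius `49997` holds at least `157050` lattice points, and the
exact numbers for the two special centres. -/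

namespace Pool.Agent.V11275.Rho

open Pool.Agent.V11319.MC

theorem cfactsA : CFacts LA 1249925 5 0 0 256 157050 157045 :=
  cfacts_of_checks (lu := lu) (ld := ld) (K := 1) (m := 5) (b := 157069)
    (by decide +kernel)

theorem cfactsB : CFacts LB 1249925 5 2 1 512 157050 157049 :=
  cfacts_of_checks (lu := lu) (ld := ld) (K := 1) (m := 1) (b := 157055)
    (by decide +kernel)

def tAll : QT :=
  (.node (.node t0 t1 t2 t3) t4 (.node t5 (.node t6 t7 (.node t8 t9 t10 t11) t12) t13 (.node t14 (.node t15 t16 t17 t18) t19 t20)) (.node (.node t21 t22 t23 t24) t25 (.node t26 t27 t28 t29) t30))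

theorem hAll : chkTree2 lu ld 1249925 5 0 0 256 2 1 512 157050 tAll 2 0 0 = true :=
  (chk_node 2 0 0 (chk_node 4 0 0 h0 h1 h2 h3) h4 (chk_node 4 1 0 h5 (chk_node 8 2 1 h6 h7 (chk_node 16 5 2 h8 h9 h10 h11) h12) h13 (chk_node 8 3 1 h14 (chk_node 16 6 3 h15 h16 h17 h18) h19 h20)) (chk_node 4 1 1 (chk_node 8 2 2 h21 h22 h23 h24) h25 (chk_node 8 3 2 h26 h27 h28 h29) h30))

theorem good49997 : ∀ x y : ℝ, GoodC 49997 157050 x y := by
  intro x y
  have h := goodC_of_tree cfactsA cfactsB hAll x y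
  have e : (((1249925 : ℕ) : ℝ)) / ((5 : ℕ) : ℝ) ^ 2 = 49997 := by norm_num
  rwa [e] at h

end Pool.Agent.V11275.Rho
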