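import Pool.Agent.V11319.MCMulti

/-!
Closed discs of a fixed radius: a lower bound for the number of lattice points, valid for every
centre, from a quadtree certificate with two special centres.
-/

namespace Pool.Agent.V11275.Rho

open Pool.Agent.V11319.MC

/-- The closed disc of squared radius `R2` around `(x, y)` holds at least `need` lattice points. -/
def GoodC (R2 : ℝ) (need : ℕ) (x y : ℝ) : Prop := (need : ℕ∞) ≤ (Ic R2 x y).encard

lemma Io_subset_Ic {R2 x y : ℝ} : Io R2 x y ⊆ Ic R2 x y := by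
  intro p hp
  have h : ((p.1 : ℝ) - x) ^ 2 + ((p.2 : ℝ) - y) ^ 2 < R2 := hp
  exact h.le

lemma good_toC {R2 : ℝ} {a need : ℕ} {x y : ℝ} (h : Good R2 a need x y) : GoodC R2 need x y := by
  rcases h with h | ⟨_, h⟩
  · exact h.trans (Set.encard_le_encard Io_subset_Ic)
  · exact h

lemma goodC_of_equiv {R2 : ℝ} {need : ℕ} {x y x' y' : ℝ} (e : ℤ × ℤ ≃ ℤ × ℤ)
    (h : ∀ p, (((e p).1 : ℝ) - x') ^ 2 + (((e p).2 : ℝ) - y') ^ 2 =
      ((p.1 : ℝ) - x) ^ 2 + ((p.2 : ℝ) - y) ^ 2) (hg : GoodC R2 need x y) :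
    GoodC R2 need x' y' := by
  have h2 : Ic R2 x' y' = e '' Ic R2 x y := by
    ext q
    constructor
    · intro hq
      refine ⟨e.symm q, ?_, by simp⟩
      have := h (e.symm q)
      simp only [Equiv.apply_symm_apply] at this
      show _ ≤ R2
      rw [← this]; exact hq
    · rintro ⟨p, hp, rfl⟩
      show _ ≤ R2
      rw [h p]; exact hp
  rw [GoodC, h2, e.injective.encard_image]
  exact hg

/-- It is enough to check centres in the fundamental triangle. -/
lemma goodC_all {R2 : ℝ} {need : ℕ}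
    (h : ∀ x y : ℝ, 0 ≤ y → y ≤ x → x ≤ 1 / 2 → GoodC R2 need x y) :
    ∀ x y : ℝ, GoodC R2 need x y := by
  have h1 : ∀ x y : ℝ, 0 ≤ x → 0 ≤ y → x ≤ 1 / 2 → y ≤ 1 / 2 → GoodC R2 need x y := by
    intro x y hx hy hx2 hy2
    rcases le_total y x with hxy | hxy
    · exact h x y hy hxy hx2
    · refine goodC_of_equiv (Equiv.prodComm ℤ ℤ) ?_ (h y x hx hxy hy2)
      rintro ⟨p, q⟩
      simp only [Equiv.prodComm_apply, Prod.swap_prod_mk]
      ring
  have h2 : ∀ x y : ℝ, |x| ≤ 1 / 2 → |y| ≤ 1 / 2 → GoodC R2 need x y := by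
    intro x y hx hy
    have hy' : ∀ x : ℝ, 0 ≤ x → x ≤ 1 / 2 → GoodC R2 need x y := by
      intro x hx0 hx1
      rcases le_total 0 y with h0 | h0
      · exact h1 x y hx0 h0 hx1 (by rwa [abs_of_nonneg h0] at hy)
      · refine goodC_of_equiv (x := x) (y := -y)
          ((Equiv.refl ℤ).prodCongr (Equiv.neg ℤ)) ?_
          (h1 x (-y) hx0 (by linarith) hx1 (by rwa [abs_of_nonpos h0] at hy))
        rintro ⟨p, q⟩
        simp only [Equiv.prodCongr_apply, Prod.map_apply, Equiv.refl_apply, Equiv.neg_apply]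
        push_cast
        ring
    rcases le_total 0 x with h0 | h0
    · exact hy' x h0 (by rwa [abs_of_nonneg h0] at hx)
    · refine goodC_of_equiv (x := -x) (y := y)
        ((Equiv.neg ℤ).prodCongr (Equiv.refl ℤ)) ?_
        (hy' (-x) (by linarith) (by rwa [abs_of_nonpos h0] at hx))
      rintro ⟨p, q⟩
      simp only [Equiv.prodCongr_apply, Prod.map_apply, Equiv.refl_apply, Equiv.neg_apply]
      push_cast
      ring
  intro x y
  refine goodC_of_equiv (x := x - round x) (y := y - round y)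
    ((Equiv.addRight (round x)).prodCongr (Equiv.addRight (round y))) ?_
    (h2 _ _ (abs_sub_round x) (abs_sub_round y))
  rintro ⟨p, q⟩
  simp only [Equiv.prodCongr_apply, Prod.map_apply, Equiv.coe_addRight]
  push_cast
  ring

lemma tree_goodC {lu ld : List ℕ} {s w u v H u2 v2 H2 need : ℕ} (hw : 0 < w) (hH : 0 < H)
    (hH2 : 0 < H2)
    (hspec : ∀ x y : ℝ, SpecBox w u v H x y → GoodC ((s : ℝ) / (w : ℝ) ^ 2) need x y)
    (hspec2 : ∀ x y : ℝ, SpecBox w u2 v2 H2 x y → GoodC ((s : ℝ) / (w : ℝ) ^ 2) need x y) :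
    ∀ (t : QT) (D X Y : ℕ), 0 < D → chkTree2 lu ld s w u v H u2 v2 H2 need t D X Y = true →
      ∀ x y : ℝ, 0 ≤ y → y ≤ x → InB D X x → InB D Y y →
        GoodC ((s : ℝ) / (w : ℝ) ^ 2) need x y := by
  intro t
  induction t with
  | leaf =>
    intro D X Y hD hc x y hy hyx hx1 hy1
    rw [chkTree2, Bool.and_eq_true, Bool.and_eq_true, Nat.ble_eq, Nat.ble_eq, Nat.ble_eq] at hc
    obtain ⟨⟨h1, h2⟩, h3⟩ := hc
    obtain ⟨F, hF1, hF2⟩ := boxCount_exists (Y1 := Y) (Y2 := Y + 1) lu ld (S := s * (D * D))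
      (W := w * w) hD (Nat.mul_pos hw hw) h1 (Nat.le_succ Y) h2
    rw [boxIn_R2 hD] at hF2
    have hsub : (F : Set (ℤ × ℤ)) ⊆ Ic ((s : ℝ) / (w : ℝ) ^ 2) x y := by
      intro p hp
      exact le_of_lt (hF2 p (by exact_mod_cast hp) x y (hx1.low (hy.trans hyx))
        (by push_cast; exact hx1.2) (hy1.low hy) (by push_cast; exact hy1.2))
    calc (need : ℕ∞) ≤ (F.card : ℕ∞) := by rw [hF1]; exact_mod_cast h3
      _ = (F : Set (ℤ × ℤ)).encard := (Set.encard_coe_eq_coe_finsetCard F).symm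
      _ ≤ _ := Set.encard_le_encard hsub
  | spec =>
    intro D X Y hD hc x y hy hyx hx1 hy1
    rw [chkTree2, Bool.or_eq_true] at hc
    rcases hc with hc | hc
    · exact hspec x y (specOK_box hD hw hH hc (hx1.low (hy.trans hyx)) hx1.2 (hy1.low hy) hy1.2)
    · exact hspec2 x y (specOK_box hD hw hH2 hc (hx1.low (hy.trans hyx)) hx1.2 (hy1.low hy) hy1.2)
  | out =>
    intro D X Y hD hc x y hy hyx hx1 hy1
    exfalso
    rw [chkTree2, Nat.ble_eq] at hc
    have hDR : (0 : ℝ) < D := by exact_mod_cast hD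
    have h1 : (Y : ℝ) < D * y := by
      rcases hy1.1 with h | h
      · omega
      · exact h
    have h2 := hx1.2
    have h3 : (X : ℝ) + 1 ≤ Y := by exact_mod_cast hc
    nlinarith
  | node ta tb tc td iha ihb ihc ihd =>
    intro D X Y hD hc x y hy hyx hx1 hy1
    rw [chkTree2, Bool.and_eq_true, Bool.and_eq_true, Bool.and_eq_true] at hc
    obtain ⟨⟨⟨h1, h2⟩, h3⟩, h4⟩ := hc
    rcases hx1.split with hx2 | hx2 <;> rcases hy1.split with hy2 | hy2
    · exact iha _ _ _ (by omega) h1 x y hy hyx hx2 hy2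
    · exact ihb _ _ _ (by omega) h2 x y hy hyx hx2 hy2
    · exact ihc _ _ _ (by omega) h3 x y hy hyx hx2 hy2
    · exact ihd _ _ _ (by omega) h4 x y hy hyx hx2 hy2

lemma chk_node {lu ld : List ℕ} {s w u v H u2 v2 H2 need : ℕ} (D X Y : ℕ) {a b c d : QT}
    (ha : chkTree2 lu ld s w u v H u2 v2 H2 need a (2 * D) (2 * X) (2 * Y) = true)
    (hb : chkTree2 lu ld s w u v H u2 v2 H2 need b (2 * D) (2 * X) (2 * Y + 1) = true)
    (hc : chkTree2 lu ld s w u v H u2 v2 H2 need c (2 * D) (2 * X + 1) (2 * Y) = true)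
    (hd : chkTree2 lu ld s w u v H u2 v2 H2 need d (2 * D) (2 * X + 1) (2 * Y + 1) = true) :
    chkTree2 lu ld s w u v H u2 v2 H2 need (.node a b c d) D X Y = true := by
  rw [chkTree2, ha, hb, hc, hd]; rfl

theorem goodC_of_tree {L L2 : List (ℤ × ℤ)} {lu ld : List ℕ} {s w u v H u2 v2 H2 need a a2 : ℕ}
    {t : QT} (F : CFacts L s w u v H need a) (F2 : CFacts L2 s w u2 v2 H2 need a2)
    (h : chkTree2 lu ld s w u v H u2 v2 H2 need t 2 0 0 = true) :
    ∀ x y, GoodC ((s : ℝ) / (w : ℝ) ^ 2) need x y := by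
  apply goodC_all
  intro x y hy hyx hx
  apply tree_goodC F.hw F.hH F2.hH (fun x y h => good_toC (F.good x y h))
    (fun x y h => good_toC (F2.good x y h)) t 2 0 0 (by norm_num) h x y hy hyx
  · exact ⟨Or.inl rfl, by push_cast; linarith⟩
  · exact ⟨Or.inl rfl, by push_cast; linarith⟩

end Pool.Agent.V11275.Rho
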